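import Mathlib
import Pool.Agent.H.MP_1096cc_an.Two
import Pool.Agent.H.MP_1096cc_an.Three

namespace Pool.Agent.Results.MP_1096cc_an.OnlyPlane

open Metric Filter Topology InnerProductSpace Set Pool.Agent.H.MP_1096cc_an

/-- the supremum of `|u|` over the open ball of radius `s` -/
noncomputable def supn {n : ℕ} (u : EuclideanSpace ℝ (Fin n) → ℂ) (s : ℝ) : ℝ :=
  sSup ((fun x => ‖u x‖) '' ball 0 s)

lemma le_supn {n : ℕ} {u : EuclideanSpace ℝ (Fin n) → ℂ} {s C : ℝ}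
    (h : ∀ x, ‖x‖ < s → ‖u x‖ ≤ C) {x : EuclideanSpace ℝ (Fin n)} (hx : ‖x‖ < s) :
    ‖u x‖ ≤ supn u s :=
  le_csSup ⟨C, by rintro _ ⟨y, hy, rfl⟩; exact h y (by simpa using hy)⟩ ⟨x, by simpa using hx, rfl⟩

lemma supn_le {n : ℕ} {u : EuclideanSpace ℝ (Fin n) → ℂ} {s C : ℝ} (hs : 0 < s)
    (h : ∀ x, ‖x‖ < s → ‖u x‖ ≤ C) : supn u s ≤ C :=
  csSup_le ⟨_, 0, by simpa using hs, rfl⟩ (by rintro _ ⟨y, hy, rfl⟩; exact h y (by simpa using hy))

lemma supn_nonneg {n : ℕ} (u : EuclideanSpace ℝ (Fin n) → ℂ) (s : ℝ) : 0 ≤ supn u s :=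
  Real.sSup_nonneg (by rintro _ ⟨y, -, rfl⟩; exact norm_nonneg _)

lemma transfer {u : EuclideanSpace ℝ (Fin 2) → ℂ} (hu : HarmonicOnNhd u (ball 0 1)) :
    HarmonicOnNhd (u ∘ Complex.orthonormalBasisOneI.repr) (ball 0 1) := by
  intro z hz
  let L := Complex.orthonormalBasisOneI.repr
  have h := hu (L z) (by simpa using hz)
  refine ⟨h.1.comp z L.contDiff.contDiffAt, ?_⟩
  filter_upwards [L.continuous.continuousAt.eventually h.2] with w hw
  rw [laplacian_eq_iteratedFDeriv_orthonormalBasis _ (Complex.orthonormalBasisOneI.map L)] at hw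
  rw [laplacian_eq_iteratedFDeriv_orthonormalBasis _ Complex.orthonormalBasisOneI]
  have := L.toContinuousLinearEquiv.iteratedFDerivWithin_comp_right u uniqueDiffOn_univ
    (mem_univ (L w)) 2
  simp only [preimage_univ, iteratedFDerivWithin_univ] at this
  refine Eq.trans (Finset.sum_congr rfl fun i _ => ?_) hw
  refine (DFunLike.congr_fun this _).trans ?_
  rw [ContinuousMultilinearMap.compContinuousLinearMap_apply]
  congr 1
  funext j
  fin_cases j <;> rfl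

theorem result (n : ℕ) (hn : 2 ≤ n) (ρ r : ℝ) (hρ : 0 < ρ) (hρr : ρ < r) (hr : r < 1) :
    (∃ K : ℝ, ∀ u : EuclideanSpace ℝ (Fin n) → ℂ, HarmonicOnNhd u (ball 0 1) → supn u 1 = 1 →
      supn u r ≤ K * supn u ρ ^ (Real.log r / Real.log ρ)) ↔ n = 2 := by
  have hr0 := hρ.trans hρr
  have hρ1 := hρr.trans hr
  have l1 := Real.log_neg hρ hρ1
  obtain ⟨β, hβ⟩ : ∃ β, β = Real.log r / Real.log ρ := ⟨_, rfl⟩
  have hβ0 : 0 < β := hβ ▸ div_pos_of_neg_of_neg (Real.log_neg hr0 hr) l1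
  have hβ1 : β < 1 := hβ ▸ (div_lt_one_of_neg l1).2 (Real.log_lt_log hρ hρr)
  have hrβ : ρ ^ β = r := by
    rw [Real.rpow_def_of_pos hρ, hβ, mul_div_cancel₀ _ l1.ne, Real.exp_log hr0]
  rw [← hβ]
  constructor
  · rintro ⟨K, hK⟩
    by_contra hn2
    obtain ⟨m, rfl⟩ : ∃ m, n = m + 3 := ⟨n - 3, by omega⟩
    have hq : 0 < (1 - r ^ 2) * (r ^ 2 - ρ ^ 2) := mul_pos (by nlinarith) (by nlinarith)
    obtain ⟨M, hM⟩ := exists_nat_gt (6 * |K| / ((1 - r ^ 2) * (r ^ 2 - ρ ^ 2)))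
    rw [div_lt_iff₀ hq] at hM
    obtain ⟨N, u, h1, h2, h3, h4⟩ := example3 (n := m) hρ hρ1 M
    have h2' : ∀ x, ‖x‖ < 1 → ‖u x‖ ≤ 6 := fun x hx => h2 x hx.le
    have hlow : ∀ s, r ≤ s → s ≤ 1 →
        M * (r ^ N * ((1 - r ^ 2) * (r ^ 2 - ρ ^ 2))) ≤ supn u s := by
      intro s hs hs1
      have hc : Continuous fun t : ℝ => |M * (t ^ N * ((t ^ 2 - 1) * (t ^ 2 - ρ ^ 2)))| := by fun_prop
      have := le_of_tendsto ((hc.tendsto r).mono_left (nhdsWithin_le_nhds (s := Iio r)))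
        (b := supn u s) (by
          filter_upwards [Ioo_mem_nhdsLT hr0] with t ht
          have := le_supn (fun x hx => h2' x (hx.trans_le hs1)) (x := EuclideanSpace.single 0 t)
            (by simpa [abs_of_pos ht.1] using ht.2.trans_le hs)
          rwa [h4, ← Complex.ofReal_natCast, ← Complex.ofReal_mul, Complex.norm_real] at this)
      refine le_trans (le_of_eq ?_) ((neg_le_abs _).trans this)
      ring
    have hrN : 0 < r ^ N := pow_pos hr0 N
    have hMpos : 0 < M * (r ^ N * ((1 - r ^ 2) * (r ^ 2 - ρ ^ 2))) := by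
      nlinarith [mul_lt_mul_of_pos_left hM hrN, abs_nonneg K]
    obtain ⟨S, hS⟩ : ∃ S, S = supn u 1 := ⟨_, rfl⟩
    have hS0 : 0 < S := hS ▸ hMpos.trans_le (hlow 1 hr.le le_rfl)
    have hS6 : S ≤ 6 := hS ▸ supn_le one_pos h2'
    have hsc : ∀ s, supn (S⁻¹ • u) s = S⁻¹ * supn u s := by
      intro s
      rw [supn, supn, ← smul_eq_mul, ← Real.sSup_smul_of_nonneg (inv_pos.2 hS0).le, ← image_smul,
        image_image]
      simp [abs_of_pos hS0]
    have := hK (S⁻¹ • u) (fun x _ => (h1 x).const_smul) (by rw [hsc, ← hS, inv_mul_cancel₀ hS0.ne'])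
    rw [hsc, hsc, inv_mul_le_iff₀ hS0] at this
    have e1 : supn u ρ ≤ 6 * ρ ^ N := supn_le hρ fun x hx => h3 x hx.le
    have e2 : S * (S⁻¹ * supn u ρ) ^ β ≤ 6 * r ^ N := by
      have t1 : (ρ ^ N) ^ β = r ^ N := by
        rw [← hrβ, ← Real.rpow_natCast, ← Real.rpow_mul hρ.le, mul_comm, Real.rpow_mul hρ.le,
          Real.rpow_natCast]
      have := supn_nonneg u ρ
      calc _ ≤ S * (S⁻¹ * (6 * ρ ^ N)) ^ β := by gcongr
        _ = S ^ (1 - β) * 6 ^ β * r ^ N := by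
          rw [Real.mul_rpow (by positivity) (by positivity),
            Real.mul_rpow (by positivity) (by positivity), t1, Real.inv_rpow hS0.le,
            Real.rpow_sub hS0, Real.rpow_one]
          ring
        _ ≤ 6 ^ (1 - β) * 6 ^ β * r ^ N := by gcongr
        _ = _ := by rw [← Real.rpow_add (by norm_num)]; simp
    have e3 : S * (K * (S⁻¹ * supn u ρ) ^ β) ≤ |K| * (6 * r ^ N) := by
      have := supn_nonneg u ρ
      rw [mul_left_comm]
      exact (mul_le_mul_of_nonneg_right (le_abs_self K) (by positivity)).trans (by gcongr)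
    nlinarith [hlow r le_rfl hr.le, mul_lt_mul_of_pos_left hM hrN]
  · rintro rfl
    obtain ⟨K, hK⟩ := complex_bound hρ hρ1 hβ0 hβ1
    refine ⟨K, fun u hu h1 => supn_le hr0 fun x hx => ?_⟩
    have hb : BddAbove ((fun x => ‖u x‖) '' ball 0 1) := by
      by_contra h
      rw [supn, Real.sSup_of_not_bddAbove h] at h1
      exact zero_ne_one h1
    have h2 : ∀ x, ‖x‖ < 1 → ‖u x‖ ≤ 1 := fun x hx =>
      h1 ▸ le_csSup hb ⟨x, by simpa using hx, rfl⟩
    have := hK _ (transfer hu) (fun z hz => h2 _ (by simpa using hz)) (supn u ρ) (supn_nonneg _ _)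
      (fun z hz => le_supn (fun x hx => h2 x (hx.trans hρ1)) (by simpa using hz))
      (Complex.orthonormalBasisOneI.repr.symm x) (by rwa [LinearIsometryEquiv.norm_map, hrβ])
    rwa [Function.comp_apply, LinearIsometryEquiv.apply_symm_apply] at this

end Pool.Agent.Results.MP_1096cc_an.OnlyPlane
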